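import Pool.Agent.Y744.NB.Stm

/-!
# Project NB: the test functions
-/

set_option autoImplicit false

open MeasureTheory Set Filter Topology Metric
open scoped ContDiff

namespace Pool.Agent.Y945.NB.PSI

open Pool.Agent.Y744.NB

lemma gw_pos (N : ℕ) {ε σ : ℝ} (hε : 0 < ε) (hσ : 0 ≤ σ) : 0 < gw N ε σ := by
  unfold gw
  positivity

lemma gw_cont (N : ℕ) {ε : ℝ} (hε : 0 < ε) {a b : ℝ} (ha : 0 ≤ a) (hb : 0 ≤ b) :
    ContinuousOn (gw N ε) (uIcc a b) := by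
  unfold gw
  apply ContinuousOn.rpow_const
  · fun_prop
  · intro x hx
    left
    have h1 : 0 ≤ x := (le_min ha hb).trans hx.1
    positivity

lemma gw_int (N : ℕ) {ε : ℝ} (hε : 0 < ε) {a b : ℝ} (ha : 0 ≤ a) (hb : 0 ≤ b) :
    IntervalIntegrable (gw N ε) volume a b := (gw_cont N hε ha hb).intervalIntegrable

lemma gw_le (N : ℕ) {ε σ q : ℝ} (hq : 0 < q) (h : q ≤ σ + ε ^ 2) :
    gw N ε σ ≤ q ^ (-(N : ℝ) / 2) := by
  unfold gw
  apply Real.rpow_le_rpow_of_nonpos hq h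
  have : (0 : ℝ) ≤ N := Nat.cast_nonneg N
  linarith

lemma sq_rpow (N : ℕ) {ρ : ℝ} (hρ : 0 < ρ) : (ρ ^ 2) ^ (-(N : ℝ) / 2) * ρ ^ N = 1 := by
  rw [← Real.rpow_natCast ρ 2, ← Real.rpow_mul hρ.le, ← Real.rpow_natCast ρ N,
    ← Real.rpow_add hρ]
  have : ((2 : ℕ) : ℝ) * (-(N : ℝ) / 2) + N = 0 := by push_cast; ring
  rw [this, Real.rpow_zero]

theorem t (h1 : S_RAD) (h2 : S_PSH) (h3 : S_LIM) (h4 : S_VOL) : S_PSI := by
  intro N hN
  have hN0 : (0 : ℝ) < N := by exact_mod_cast (by omega : 0 < N)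
  refine ⟨N * (2 : ℝ) ^ (-(N : ℝ) / 2), by positivity, ?_⟩
  intro r hr
  have hr2 : 0 < r ^ 2 := by positivity
  set R : ℝ := 4 * r ^ 2 with hR
  have hR0 : 0 < R := by positivity
  set χ : ℝ → ℝ := fun s => Real.smoothTransition ((4 * r ^ 2 - s) / (3 * r ^ 2)) with hχ
  have hχs : ContDiff ℝ ∞ χ := by
    rw [hχ]
    exact Real.smoothTransition.contDiff.comp ((contDiff_const.sub contDiff_id).div_const _)
  have hχ0 : ∀ s, 0 ≤ χ s := fun s => Real.smoothTransition.nonneg _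
  have hχ1 : ∀ s, χ s ≤ 1 := fun s => Real.smoothTransition.le_one _
  have hχone : ∀ s, s ≤ r ^ 2 → χ s = 1 := by
    intro s hs
    apply Real.smoothTransition.one_of_one_le
    rw [le_div_iff₀ (by positivity)]
    linarith
  have hχzero : ∀ s, R ≤ s → χ s = 0 := by
    intro s hs
    apply Real.smoothTransition.zero_of_nonpos
    apply div_nonpos_of_nonpos_of_nonneg
    · linarith
    · positivity
  have hdc : Continuous (deriv χ) := hχs.continuous_deriv (by exact_mod_cast le_top)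
  have hd1 : ∀ s, s ≤ r ^ 2 → deriv χ s = 0 := by
    have hcl : IsClosed {s | deriv χ s = 0} := isClosed_eq hdc continuous_const
    have hsub : Iio (r ^ 2) ⊆ {s | deriv χ s = 0} := by
      intro s hs
      have he : χ =ᶠ[𝓝 s] fun _ => 1 := by
        filter_upwards [Iio_mem_nhds hs] with y hy
        exact hχone y (le_of_lt hy)
      show deriv χ s = 0
      rw [he.deriv_eq, deriv_const]
    have := hcl.closure_subset_iff.2 hsub
    rw [closure_Iio] at this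
    intro s hs
    exact this hs
  have hd2 : ∀ s, R ≤ s → deriv χ s = 0 := by
    have hcl : IsClosed {s | deriv χ s = 0} := isClosed_eq hdc continuous_const
    have hsub : Ioi R ⊆ {s | deriv χ s = 0} := by
      intro s hs
      have he : χ =ᶠ[𝓝 s] fun _ => 0 := by
        filter_upwards [Ioi_mem_nhds hs] with y hy
        exact hχzero y (le_of_lt hy)
      show deriv χ s = 0
      rw [he.deriv_eq, deriv_const]
    have := hcl.closure_subset_iff.2 hsub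
    rw [closure_Ioi] at this
    intro s hs
    exact this hs
  obtain ⟨C0, hC0⟩ : ∃ C0 : ℝ, ∀ s ∈ Icc (r ^ 2) R, |deriv χ s| ≤ C0 := by
    obtain ⟨C, hC⟩ := (isCompact_Icc (a := r ^ 2) (b := R)).exists_bound_of_continuousOn
      hdc.continuousOn
    exact ⟨C, fun s hs => by simpa using hC s hs⟩
  have hC00 : 0 ≤ C0 := (abs_nonneg _).trans (hC0 (r ^ 2) ⟨le_rfl, by linarith⟩)
  set g0 : ℝ := (r ^ 2) ^ (-(N : ℝ) / 2) with hg0
  have hg00 : 0 < g0 := Real.rpow_pos_of_pos hr2 _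
  refine ⟨4 * R * g0 * C0 + 1, fun ε => ∫ σ in (0:ℝ)..R, gw N ε σ,
    fun ε => ∫ σ in (ε ^ 2)..(r ^ 2), gw N ε σ, by positivity, (h3 N R hN hR0).1,
    (h3 N (r ^ 2) hN hr2).2, ?_⟩
  intro ε hε hεr
  have hε2 : 0 < ε ^ 2 := by positivity
  have hεr2 : ε ^ 2 < r ^ 2 := by nlinarith
  obtain ⟨p1, p2⟩ := h2 N χ R ε hε hR0 hχs
  obtain ⟨q1, q2⟩ := h1 N (Ps N χ R ε) (ε ^ 2) hε2 p1
  have hint : ∀ a b : ℝ, 0 ≤ a → 0 ≤ b →
      IntervalIntegrable (fun σ => gw N ε σ * χ σ) volume a b := fun a b ha hb =>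
    ((gw_cont N hε ha hb).mul hχs.continuous.continuousOn).intervalIntegrable
  -- values of the profile
  have hbig : ∀ s, R ≤ s → Ps N χ R ε s = 0 := by
    intro s hs
    unfold Ps
    rw [intervalIntegral.integral_symm]
    have h5 : ∫ σ in R..s, gw N ε σ * χ σ = ∫ σ in R..s, (0 : ℝ) := by
      apply intervalIntegral.integral_congr
      intro σ hσ
      rw [uIcc_of_le hs] at hσ
      show gw N ε σ * χ σ = 0
      rw [hχzero σ hσ.1, mul_zero]
    rw [h5]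
    simp
  have hnn : ∀ s, 0 ≤ s → 0 ≤ Ps N χ R ε s := by
    intro s hs
    rcases le_total s R with h | h
    · unfold Ps
      apply intervalIntegral.integral_nonneg h
      intro σ hσ
      exact mul_nonneg (gw_pos N hε (hs.trans hσ.1)).le (hχ0 σ)
    · rw [hbig s h]
  have hup : ∀ s, 0 ≤ s → s ≤ R → Ps N χ R ε s ≤ ∫ σ in s..R, gw N ε σ := by
    intro s hs hsR
    unfold Ps
    apply intervalIntegral.integral_mono_on hsR (hint s R hs hR0.le) (gw_int N hε hs hR0.le)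
    intro σ hσ
    have h5 := (gw_pos N hε (hs.trans hσ.1)).le
    have h6 := hχ1 σ
    calc gw N ε σ * χ σ ≤ gw N ε σ * 1 := by gcongr
      _ = gw N ε σ := mul_one _
  -- the Laplacian
  have hlap : ∀ y : E N, -Laplacian.laplacian (fun y : E N => Ps N χ R ε (‖y‖ ^ 2)) y =
      2 * N * (ε ^ 2 / (‖y‖ ^ 2 + ε ^ 2)) * gw N ε (‖y‖ ^ 2) * χ (‖y‖ ^ 2) +
        4 * ‖y‖ ^ 2 * gw N ε (‖y‖ ^ 2) * deriv χ (‖y‖ ^ 2) := by
    intro y
    have hs : 0 ≤ ‖y‖ ^ 2 := by positivity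
    obtain ⟨e1, e2⟩ := p2 (‖y‖ ^ 2) (by linarith)
    rw [q2, e1, e2]
    have h5 : ‖y‖ ^ 2 + ε ^ 2 ≠ 0 := by positivity
    field_simp
    ring
  refine ⟨fun y => Ps N χ R ε (‖y‖ ^ 2), q1, ?_, ?_, ?_, ?_, ?_, ?_, ?_, ?_, ?_, ?_⟩
  · -- compact support
    apply HasCompactSupport.intro (isCompact_closedBall (0 : E N) (2 * r))
    intro y hy
    have h5 : 2 * r < ‖y‖ := by
      rw [mem_closedBall, dist_zero_right, not_le] at hy
      exact hy
    apply hbig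
    rw [hR]
    nlinarith
  · intro y
    exact hnn _ (by positivity)
  · intro y hy
    apply hbig
    rw [hR]
    nlinarith
  · exact h4 N χ R ε hε hR0 hχs.continuous (fun s => ⟨hχ0 s, hχ1 s⟩) hχzero
  · -- upper bound
    intro y
    have hs : 0 ≤ ‖y‖ ^ 2 := by positivity
    show Ps N χ R ε (‖y‖ ^ 2) ≤ ∫ σ in (0:ℝ)..R, gw N ε σ
    rcases le_total (‖y‖ ^ 2) R with h | h
    · refine (hup _ hs h).trans ?_
      rw [← intervalIntegral.integral_add_adjacent_intervals (gw_int N hε le_rfl hs)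
        (gw_int N hε hs hR0.le)]
      have h5 : 0 ≤ ∫ σ in (0:ℝ)..(‖y‖ ^ 2), gw N ε σ := by
        apply intervalIntegral.integral_nonneg hs
        intro σ hσ
        exact (gw_pos N hε hσ.1).le
      linarith
    · rw [hbig _ h]
      apply intervalIntegral.integral_nonneg hR0.le
      intro σ hσ
      exact (gw_pos N hε hσ.1).le
  · -- decay
    intro ρ hρ y hy
    have hs : 0 ≤ ‖y‖ ^ 2 := by positivity
    have hρ2 : ρ ^ 2 ≤ ‖y‖ ^ 2 := pow_le_pow_left₀ hρ.le hy 2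
    show Ps N χ R ε (‖y‖ ^ 2) * ρ ^ N ≤ R
    rcases le_total (‖y‖ ^ 2) R with h | h
    · have h5 : ∫ σ in (‖y‖ ^ 2)..R, gw N ε σ ≤ ∫ _σ in (‖y‖ ^ 2)..R, (ρ ^ 2) ^ (-(N : ℝ) / 2) := by
        apply intervalIntegral.integral_mono_on h (gw_int N hε hs hR0.le)
          intervalIntegrable_const
        intro σ hσ
        apply gw_le N (by positivity)
        have := hσ.1
        linarith
      rw [intervalIntegral.integral_const, smul_eq_mul] at h5
      have h6 : 0 < (ρ ^ 2) ^ (-(N : ℝ) / 2) := Real.rpow_pos_of_pos (by positivity) _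
      have h7 : Ps N χ R ε (‖y‖ ^ 2) ≤ R * (ρ ^ 2) ^ (-(N : ℝ) / 2) := by
        refine ((hup _ hs h).trans h5).trans ?_
        apply mul_le_mul_of_nonneg_right _ h6.le
        linarith
      calc Ps N χ R ε (‖y‖ ^ 2) * ρ ^ N ≤ (R * (ρ ^ 2) ^ (-(N : ℝ) / 2)) * ρ ^ N := by gcongr
        _ = R * ((ρ ^ 2) ^ (-(N : ℝ) / 2) * ρ ^ N) := by ring
        _ = R := by rw [sq_rpow N hρ, mul_one]
    · rw [hbig _ h, zero_mul]
      exact hR0.le
  · -- lower bound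
    intro y hy
    have hs : 0 ≤ ‖y‖ ^ 2 := by positivity
    have hs2 : ‖y‖ ^ 2 ≤ ε ^ 2 := pow_le_pow_left₀ (norm_nonneg _) hy 2
    show ∫ σ in (ε ^ 2)..(r ^ 2), gw N ε σ ≤ Ps N χ R ε (‖y‖ ^ 2)
    unfold Ps
    have hrR : r ^ 2 ≤ R := by rw [hR]; linarith
    rw [← intervalIntegral.integral_add_adjacent_intervals (hint _ _ hs hε2.le)
      (hint _ _ hε2.le hR0.le),
      ← intervalIntegral.integral_add_adjacent_intervals (hint _ _ hε2.le hr2.le)
      (hint _ _ hr2.le hR0.le)]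
    have h5 : 0 ≤ ∫ σ in (‖y‖ ^ 2)..(ε ^ 2), gw N ε σ * χ σ := by
      apply intervalIntegral.integral_nonneg hs2
      intro σ hσ
      exact mul_nonneg (gw_pos N hε (hs.trans hσ.1)).le (hχ0 σ)
    have h6 : 0 ≤ ∫ σ in (r ^ 2)..R, gw N ε σ * χ σ := by
      apply intervalIntegral.integral_nonneg hrR
      intro σ hσ
      exact mul_nonneg (gw_pos N hε (hr2.le.trans hσ.1)).le (hχ0 σ)
    have h7 : ∫ σ in (ε ^ 2)..(r ^ 2), gw N ε σ = ∫ σ in (ε ^ 2)..(r ^ 2), gw N ε σ * χ σ := by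
      apply intervalIntegral.integral_congr
      intro σ hσ
      rw [uIcc_of_le hεr2.le] at hσ
      show gw N ε σ = gw N ε σ * χ σ
      rw [hχone σ hσ.2, mul_one]
    rw [h7]
    linarith
  · -- the Laplacian on the small ball
    intro y hy
    have hs : 0 ≤ ‖y‖ ^ 2 := by positivity
    have hs2 : ‖y‖ ^ 2 ≤ ε ^ 2 := pow_le_pow_left₀ (norm_nonneg _) hy 2
    rw [hlap, hχone _ (by linarith), hd1 _ (by linarith), mul_zero, add_zero, mul_one]
    have h5 : 1 / 2 ≤ ε ^ 2 / (‖y‖ ^ 2 + ε ^ 2) := by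
      rw [div_le_div_iff₀ (by norm_num) (by positivity)]
      linarith
    have h6 : (2 : ℝ) ^ (-(N : ℝ) / 2) ≤ gw N ε (‖y‖ ^ 2) * ε ^ N := by
      have h7 : (2 * ε ^ 2) ^ (-(N : ℝ) / 2) ≤ gw N ε (‖y‖ ^ 2) := by
        unfold gw
        apply Real.rpow_le_rpow_of_nonpos (by positivity) (by linarith)
        linarith
      calc (2 : ℝ) ^ (-(N : ℝ) / 2) = (2 : ℝ) ^ (-(N : ℝ) / 2) *
            ((ε ^ 2) ^ (-(N : ℝ) / 2) * ε ^ N) := by rw [sq_rpow N hε, mul_one]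
        _ = (2 * ε ^ 2) ^ (-(N : ℝ) / 2) * ε ^ N := by
            rw [Real.mul_rpow (by norm_num) hε2.le]; ring
        _ ≤ _ := by gcongr
    have h8 : 0 < (2 : ℝ) ^ (-(N : ℝ) / 2) := by positivity
    calc (N : ℝ) * (2 : ℝ) ^ (-(N : ℝ) / 2) = 2 * N * (1 / 2) * (2 : ℝ) ^ (-(N : ℝ) / 2) := by ring
      _ ≤ 2 * N * (ε ^ 2 / (‖y‖ ^ 2 + ε ^ 2)) * (gw N ε (‖y‖ ^ 2) * ε ^ N) := by gcongr
      _ = _ := by ring
  · -- lower bound of the Laplacian
    intro y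
    have hs : 0 ≤ ‖y‖ ^ 2 := by positivity
    have hg := (gw_pos N hε hs).le
    rw [hlap]
    have h5 : 0 ≤ 2 * N * (ε ^ 2 / (‖y‖ ^ 2 + ε ^ 2)) * gw N ε (‖y‖ ^ 2) * χ (‖y‖ ^ 2) := by
      have := hχ0 (‖y‖ ^ 2)
      positivity
    have h6 : -(4 * R * g0 * C0) ≤ 4 * ‖y‖ ^ 2 * gw N ε (‖y‖ ^ 2) * deriv χ (‖y‖ ^ 2) := by
      have h7 : 0 ≤ 4 * R * g0 * C0 := by positivity
      rcases le_total (‖y‖ ^ 2) (r ^ 2) with h | h
      · rw [hd1 _ h, mul_zero]; linarith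
      rcases le_total R (‖y‖ ^ 2) with h' | h'
      · rw [hd2 _ h', mul_zero]; linarith
      have h8 := hC0 _ ⟨h, h'⟩
      have h9 : gw N ε (‖y‖ ^ 2) ≤ g0 := gw_le N hr2 (by linarith)
      have h10 : |4 * ‖y‖ ^ 2 * gw N ε (‖y‖ ^ 2) * deriv χ (‖y‖ ^ 2)| ≤ 4 * R * g0 * C0 := by
        rw [abs_mul, abs_of_nonneg (by positivity : 0 ≤ 4 * ‖y‖ ^ 2 * gw N ε (‖y‖ ^ 2))]
        gcongr
      exact (abs_le.1 h10).1
    linarith
  · -- sign of the Laplacian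
    intro y hy
    have hs : 0 ≤ ‖y‖ ^ 2 := by positivity
    have hg := (gw_pos N hε hs).le
    rw [hlap]
    have h5 : 0 ≤ 2 * N * (ε ^ 2 / (‖y‖ ^ 2 + ε ^ 2)) * gw N ε (‖y‖ ^ 2) * χ (‖y‖ ^ 2) := by
      have := hχ0 (‖y‖ ^ 2)
      positivity
    have h6 : deriv χ (‖y‖ ^ 2) = 0 := by
      rcases hy with hy | hy
      · exact hd1 _ (pow_le_pow_left₀ (norm_nonneg _) hy 2)
      · apply hd2
        rw [hR]
        nlinarith
    rw [h6, mul_zero, add_zero]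
    exact h5

end Pool.Agent.Y945.NB.PSI
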